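import Mathlib

set_option autoImplicit false

namespace Pool.Agent.Results.MP_28c202_co.MajIdentity

open Finset Polynomial

/-- The strict order of the poset `NE_{2,t}` on the labels `1, …, 2t`: every label is written
`(i-1)t+k` with `i ∈ {1,2}` and `k ∈ {1,…,t}`, and `(i-1)t+k ≺ (i'-1)t+k'` means
`i ≥ i'`, `k ≥ k'` and the two labels differ. -/
def NEPrec (t x y : ℕ) : Prop :=
  ∃ i k i' k' : ℕ, (1 ≤ i ∧ i ≤ 2) ∧ (1 ≤ k ∧ k ≤ t) ∧ (1 ≤ i' ∧ i' ≤ 2) ∧ (1 ≤ k' ∧ k' ≤ t) ∧
    x = (i - 1) * t + k ∧ y = (i' - 1) * t + k' ∧ i' ≤ i ∧ k' ≤ k ∧ x ≠ y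

/-- The one-line word of a permutation of `{1,…,n}` (coded as a permutation of `Fin n`):
position `a+1` carries the value `π a + 1`. -/
def word {n : ℕ} (π : Equiv.Perm (Fin n)) (a : Fin n) : ℕ := (π a).val + 1

/-- `π` is a linear extension of `NE_{2,t}`: `π(a) ≺ π(b)` implies `a < b`. -/
def IsLinearExtension (t : ℕ) (π : Equiv.Perm (Fin (2 * t))) : Prop :=
  ∀ a b : Fin (2 * t), NEPrec t (word π a) (word π b) → a < b

/-- `π` avoids `123`. -/
def Avoids123 {n : ℕ} (π : Equiv.Perm (Fin n)) : Prop :=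
  ¬ ∃ a b c : Fin n, a < b ∧ b < c ∧ word π a < word π b ∧ word π b < word π c

/-- The major index of a finite sequence of natural numbers: the sum of the positions
`i` (counted from `1`) with `w(i) > w(i+1)`. -/
noncomputable def maj {n : ℕ} (w : Fin n → ℕ) : ℕ :=
  open Classical in
  ∑ i ∈ Finset.univ.filter (fun i : Fin n => ∃ h : i.val + 1 < n, w ⟨i.val + 1, h⟩ < w i),
    (i.val + 1)

/-- `NE_{2,t}(123)[q]`. -/
noncomputable def NEpoly (t : ℕ) : ℤ[X] :=
  open Classical in
  ∑ π ∈ (Finset.univ : Finset (Equiv.Perm (Fin (2 * t)))).filter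
      (fun π => IsLinearExtension t π ∧ Avoids123 π),
    X ^ maj (word π)

/-- Catalan words of length `2n`: `n` zeros and `n` ones, every initial segment has at least
as many zeros as ones. -/
def IsCatalanWord (n : ℕ) (w : Fin (2 * n) → Fin 2) : Prop :=
  (Finset.univ.filter (fun i => w i = 0)).card = n ∧
  (Finset.univ.filter (fun i => w i = 1)).card = n ∧
  ∀ m : ℕ, (Finset.univ.filter (fun i : Fin (2 * n) => i.val < m ∧ w i = 1)).card ≤
    (Finset.univ.filter (fun i : Fin (2 * n) => i.val < m ∧ w i = 0)).card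

/-- `c_n(q)`. -/
noncomputable def catPoly (n : ℕ) : ℤ[X] :=
  open Classical in
  ∑ w ∈ (Finset.univ : Finset (Fin (2 * n) → Fin 2)).filter (fun w => IsCatalanWord n w),
    X ^ maj (fun i => (w i).val)

/-! ### The closed form -/

/-- `∏_{i=1}^n (q^i - 1)`. -/
noncomputable def D (q : ℝ) (n : ℕ) : ℝ := ∏ i ∈ Finset.range n, (q ^ (i + 1) - 1)

lemma D_succ (q : ℝ) (n : ℕ) : D q (n + 1) = D q n * (q ^ (n + 1) - 1) := by
  simp [D, Finset.prod_range_succ]

lemma D_ne (q : ℝ) (hq : ∀ i : ℕ, q ^ (i + 1) - 1 ≠ 0) (n : ℕ) : D q n ≠ 0 := by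
  unfold D
  exact Finset.prod_ne_zero_iff.mpr (fun i _ => hq i)

/-- The closed form for ballot words with `a` zeros and `b` ones. -/
noncomputable def Cl (q : ℝ) (a b : ℕ) : ℝ :=
  D q (a + b) * (q ^ (a + 1) - q ^ (b + 1) + q - 1) / (D q b * D q (a + 1))

lemma Cl_zero (q : ℝ) (hq : ∀ i : ℕ, q ^ (i + 1) - 1 ≠ 0) (a : ℕ) : Cl q a 0 = 1 := by
  have h1 := D_ne q hq a
  have h2 := hq a
  unfold Cl
  rw [D_succ]
  have : D q 0 = 1 := by simp [D]
  rw [this]
  field_simp
  simp

lemma Cl_rec (q : ℝ) (hq : ∀ i : ℕ, q ^ (i + 1) - 1 ≠ 0) (a b : ℕ) :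
    Cl q (a + 1) (b + 1) =
      Cl q a (b + 1) + (q ^ (a + b + 1) - 1) * Cl q a b + Cl q (a + 1) b := by
  have h1 := D_ne q hq (a + b)
  have h2 := D_ne q hq b
  have h3 := D_ne q hq (a + 1)
  have h4 := hq b
  have h5 := hq (a + 1)
  unfold Cl
  have e1 : D q (a + 1 + (b + 1)) = D q (a + b) * (q ^ (a + b + 1) - 1) * (q ^ (a + b + 2) - 1) := by
    have : a + 1 + (b + 1) = (a + b + 1) + 1 := by ring
    rw [this, D_succ, D_succ]
  have e2 : D q (a + (b + 1)) = D q (a + b) * (q ^ (a + b + 1) - 1) := by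
    have : a + (b + 1) = (a + b) + 1 := by ring
    rw [this, D_succ]
  have e3 : D q (a + 1 + b) = D q (a + b) * (q ^ (a + b + 1) - 1) := by
    have : a + 1 + b = (a + b) + 1 := by ring
    rw [this, D_succ]
  rw [e1, e2, e3, D_succ q b, D_succ q (a + 1)]
  have h4' : q ^ (b + 1) - 1 ≠ 0 := h4
  have h5' : q ^ (a + 1 + 1) - 1 ≠ 0 := h5
  field_simp
  ring

lemma Cl_diag (q : ℝ) (hq : ∀ i : ℕ, q ^ (i + 1) - 1 ≠ 0) (a : ℕ) :
    Cl q (a + 1) (a + 1) = Cl q (a + 1) a := by
  have h1 := D_ne q hq a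
  have h2 := D_ne q hq (a + 2)
  have h4 := hq a
  unfold Cl
  have e1 : D q (a + 1 + (a + 1)) = D q (a + 1 + a) * (q ^ (a + 1 + a + 1) - 1) := by
    have : a + 1 + (a + 1) = (a + 1 + a) + 1 := by ring
    rw [this, D_succ]
  rw [e1, D_succ q a]
  field_simp
  ring

/-! ### Ballot words -/

def cnt {m : ℕ} (w : Fin m → Fin 2) (x : Fin 2) (j : ℕ) : ℕ :=
  (Finset.univ.filter (fun i : Fin m => i.val < j ∧ w i = x)).card

def Ballot {m : ℕ} (w : Fin m → Fin 2) : Prop := ∀ j, cnt w 1 j ≤ cnt w 0 j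

lemma cnt_eq_sum {m : ℕ} (w : Fin m → Fin 2) (x : Fin 2) (j : ℕ) :
    cnt w x j = ∑ i : Fin m, if i.val < j ∧ w i = x then 1 else 0 := by
  unfold cnt
  rw [Finset.card_filter]

lemma cnt_snoc {m : ℕ} (w : Fin m → Fin 2) (y x : Fin 2) (j : ℕ) :
    cnt (Fin.snoc w y : Fin (m + 1) → Fin 2) x j = cnt w x j + if m < j ∧ y = x then 1 else 0 := by
  rw [cnt_eq_sum, cnt_eq_sum, Fin.sum_univ_castSucc]
  simp [Fin.snoc_castSucc, Fin.snoc_last]

lemma cnt_stable {m : ℕ} (w : Fin m → Fin 2) (x : Fin 2) (j : ℕ) (hj : m ≤ j) :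
    cnt w x j = cnt w x m := by
  unfold cnt
  congr 1
  ext i
  have := i.isLt
  simp only [Finset.mem_filter, Finset.mem_univ, true_and]
  constructor
  · rintro ⟨_, h⟩
    exact ⟨i.isLt, h⟩
  · rintro ⟨_, h⟩
    exact ⟨by omega, h⟩

lemma cnt_add {m : ℕ} (w : Fin m → Fin 2) (j : ℕ) (hj : j ≤ m) :
    cnt w 0 j + cnt w 1 j = j := by
  unfold cnt
  rw [← Finset.card_union_of_disjoint]
  · have : (Finset.univ.filter (fun i : Fin m => i.val < j ∧ w i = 0)) ∪
        (Finset.univ.filter (fun i : Fin m => i.val < j ∧ w i = 1)) =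
        Finset.univ.filter (fun i : Fin m => i.val < j) := by
      ext i
      simp only [Finset.mem_union, Finset.mem_filter, Finset.mem_univ, true_and]
      constructor
      · rintro (⟨h, _⟩ | ⟨h, _⟩) <;> exact h
      · intro h
        rcases Fin.exists_fin_two.mp ⟨w i, rfl⟩ with h' | h'
        · left; exact ⟨h, h'⟩
        · right; exact ⟨h, h'⟩
    rw [this]
    rw [Fin.card_filter_val_lt]
    omega
  · rw [Finset.disjoint_filter]
    rintro i _ ⟨_, h⟩ ⟨_, h'⟩
    rw [h] at h'
    exact absurd h' (by decide)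

lemma maj_snoc {m : ℕ} (w : Fin (m + 1) → ℕ) (x : ℕ) :
    maj (Fin.snoc w x : Fin (m + 2) → ℕ) =
      maj w + if x < w (Fin.last m) then m + 1 else 0 := by
  classical
  unfold maj
  rw [Finset.sum_filter, Finset.sum_filter, Fin.sum_univ_castSucc, Fin.sum_univ_castSucc,
    Fin.sum_univ_castSucc (n := m)]
  have h1 : ∀ i : Fin m, (∃ h : (Fin.castSucc (Fin.castSucc i) : Fin (m + 2)).val + 1 < m + 2,
      (Fin.snoc w x : Fin (m + 2) → ℕ) ⟨(Fin.castSucc (Fin.castSucc i)).val + 1, h⟩ <
        (Fin.snoc w x : Fin (m + 2) → ℕ) (Fin.castSucc (Fin.castSucc i))) ↔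
      (∃ h : (Fin.castSucc i : Fin (m + 1)).val + 1 < m + 1,
        w ⟨(Fin.castSucc i : Fin (m + 1)).val + 1, h⟩ < w (Fin.castSucc i)) := by
    intro i
    have hi := i.isLt
    have e : (⟨(Fin.castSucc (Fin.castSucc i) : Fin (m + 2)).val + 1, by simp⟩ :
        Fin (m + 2)) = Fin.castSucc ⟨(Fin.castSucc i : Fin (m + 1)).val + 1, by simp⟩ := by
      ext; simp
    constructor
    · rintro ⟨h, h'⟩
      refine ⟨by simp, ?_⟩
      rw [e, Fin.snoc_castSucc, Fin.snoc_castSucc] at h'
      exact h'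
    · rintro ⟨h, h'⟩
      refine ⟨by simp, ?_⟩
      rw [e, Fin.snoc_castSucc, Fin.snoc_castSucc]
      exact h'
  have h2 : (∃ h : (Fin.castSucc (Fin.last m) : Fin (m + 2)).val + 1 < m + 2,
      (Fin.snoc w x : Fin (m + 2) → ℕ) ⟨(Fin.castSucc (Fin.last m)).val + 1, h⟩ <
        (Fin.snoc w x : Fin (m + 2) → ℕ) (Fin.castSucc (Fin.last m))) ↔ x < w (Fin.last m) := by
    have e : (⟨(Fin.castSucc (Fin.last m) : Fin (m + 2)).val + 1, by simp⟩ :
        Fin (m + 2)) = Fin.last (m + 1) := by
      ext; simp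
    constructor
    · rintro ⟨h, h'⟩
      rw [e, Fin.snoc_castSucc, Fin.snoc_last] at h'
      exact h'
    · intro h'
      refine ⟨by simp, ?_⟩
      rw [e, Fin.snoc_castSucc, Fin.snoc_last]
      exact h'
  have h3 : ¬ (∃ h : (Fin.last (m + 1) : Fin (m + 2)).val + 1 < m + 2,
      (Fin.snoc w x : Fin (m + 2) → ℕ) ⟨(Fin.last (m + 1)).val + 1, h⟩ <
        (Fin.snoc w x : Fin (m + 2) → ℕ) (Fin.last (m + 1))) := by
    rintro ⟨h, _⟩
    simp at h
  have h4 : ¬ (∃ h : (Fin.last m : Fin (m + 1)).val + 1 < m + 1,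
      w ⟨(Fin.last m).val + 1, h⟩ < w (Fin.last m)) := by
    rintro ⟨h, _⟩
    simp at h
  rw [if_neg h3, if_neg h4]
  simp only [h1, h2]
  simp

lemma maj_zero_len (v : Fin 0 → ℕ) : maj v = 0 := by
  unfold maj
  exact Finset.sum_eq_zero (fun i _ => i.elim0)

lemma maj_one_len (v : Fin 1 → ℕ) : maj v = 0 := by
  unfold maj
  refine Finset.sum_eq_zero (fun i hi => ?_)
  obtain ⟨h, _⟩ := (Finset.mem_filter.mp hi).2
  omega

/-- The major index of a binary word. -/
noncomputable def bmaj {m : ℕ} (w : Fin m → Fin 2) : ℕ := maj (fun i => (w i).val)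

lemma val_snoc {m : ℕ} (w : Fin m → Fin 2) (x : Fin 2) :
    (fun i => ((Fin.snoc w x : Fin (m + 1) → Fin 2) i).val) =
      (Fin.snoc (fun i => (w i).val) x.val : Fin (m + 1) → ℕ) := by
  funext i
  refine Fin.lastCases ?_ (fun j => ?_) i
  · simp [Fin.snoc_last]
  · simp [Fin.snoc_castSucc]

lemma bmaj_snoc {m : ℕ} (w : Fin (m + 1) → Fin 2) (x : Fin 2) :
    bmaj (Fin.snoc w x : Fin (m + 2) → Fin 2) =
      bmaj w + if x < w (Fin.last m) then m + 1 else 0 := by
  unfold bmaj
  rw [val_snoc, maj_snoc]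
  simp only [Fin.val_fin_lt]

lemma bmaj_snoc_one {m : ℕ} (w : Fin m → Fin 2) :
    bmaj (Fin.snoc w 1 : Fin (m + 1) → Fin 2) = bmaj w := by
  cases m with
  | zero =>
    unfold bmaj
    rw [maj_zero_len, maj_one_len]
  | succ m =>
    rw [bmaj_snoc, if_neg, add_zero]
    intro h
    have := (w (Fin.last m)).isLt
    have h1 : (1 : Fin 2).val < (w (Fin.last m)).val := h
    simp at h1
    omega

lemma ballot_snoc_zero {m : ℕ} (w : Fin m → Fin 2) :
    Ballot (Fin.snoc w 0 : Fin (m + 1) → Fin 2) ↔ Ballot w := by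
  constructor
  · intro h j
    by_cases hj : j ≤ m
    · have := h j
      rw [cnt_snoc, cnt_snoc] at this
      simp at this
      have h' : ¬ m < j := by omega
      simp [h'] at this
      exact this
    · have := h m
      rw [cnt_snoc, cnt_snoc] at this
      simp at this
      rw [cnt_stable w 1 j (by omega), cnt_stable w 0 j (by omega)]
      exact this
  · intro h j
    rw [cnt_snoc, cnt_snoc]
    have := h j
    simp
    omega

lemma ballot_snoc_one {m : ℕ} (w : Fin m → Fin 2) :
    Ballot (Fin.snoc w 1 : Fin (m + 1) → Fin 2) ↔ Ballot w ∧ 2 * cnt w 1 m + 1 ≤ m := by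
  have hadd := cnt_add w m le_rfl
  constructor
  · intro h
    refine ⟨fun j => ?_, ?_⟩
    · by_cases hj : j ≤ m
      · have := h j
        rw [cnt_snoc, cnt_snoc] at this
        simp at this
        have h' : ¬ m < j := by omega
        simp [h'] at this
        exact this
      · have := h m
        rw [cnt_snoc, cnt_snoc] at this
        simp at this
        rw [cnt_stable w 1 j (by omega), cnt_stable w 0 j (by omega)]
        exact this
    · have := h (m + 1)
      rw [cnt_snoc, cnt_snoc] at this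
      rw [cnt_stable w 1 (m + 1) (by omega), cnt_stable w 0 (m + 1) (by omega)] at this
      simp at this
      omega
  · rintro ⟨h, h2⟩ j
    rw [cnt_snoc, cnt_snoc]
    by_cases hj : j ≤ m
    · have := h j
      have h' : ¬ m < j := by omega
      simp [h']
      exact this
    · rw [cnt_stable w 1 j (by omega), cnt_stable w 0 j (by omega)]
      have h' : m < j := by omega
      simp [h']
      omega

lemma sum_snoc {m : ℕ} (f : (Fin (m + 1) → Fin 2) → ℝ) :
    ∑ w : Fin (m + 1) → Fin 2, f w =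
      (∑ w : Fin m → Fin 2, f (Fin.snoc w 0)) + ∑ w : Fin m → Fin 2, f (Fin.snoc w 1) := by
  rw [← (Fin.snocEquiv (fun _ : Fin (m + 1) => Fin 2)).sum_comp, Fintype.sum_prod_type,
    Fin.sum_univ_two]
  rfl

open Classical in
/-- Sum over ballot words of length `m` with `b` ones. -/
noncomputable def W (q : ℝ) (m b : ℕ) : ℝ :=
  ∑ w : Fin m → Fin 2, if Ballot w ∧ cnt w 1 m = b then q ^ bmaj w else 0

open Classical in
/-- Sum over ballot words of length `m + 1` with `b` ones that end with a one. -/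
noncomputable def W1 (q : ℝ) (m b : ℕ) : ℝ :=
  ∑ w : Fin (m + 1) → Fin 2,
    if Ballot w ∧ cnt w 1 (m + 1) = b ∧ w (Fin.last m) = 1 then q ^ bmaj w else 0

lemma W1_succ (q : ℝ) (m b : ℕ) :
    W1 q m (b + 1) = if 2 * b + 1 ≤ m then W q m b else 0 := by
  classical
  unfold W1 W
  rw [sum_snoc]
  have h0 : ∀ w : Fin m → Fin 2, (if Ballot (Fin.snoc w 0 : Fin (m + 1) → Fin 2) ∧
      cnt (Fin.snoc w 0 : Fin (m + 1) → Fin 2) 1 (m + 1) = b + 1 ∧
      (Fin.snoc w 0 : Fin (m + 1) → Fin 2) (Fin.last m) = 1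
      then q ^ bmaj (Fin.snoc w 0 : Fin (m + 1) → Fin 2) else 0) = 0 := by
    intro w
    rw [if_neg]
    rintro ⟨_, _, h⟩
    rw [Fin.snoc_last] at h
    exact absurd h (by decide)
  have h1 : ∀ w : Fin m → Fin 2, (if Ballot (Fin.snoc w 1 : Fin (m + 1) → Fin 2) ∧
      cnt (Fin.snoc w 1 : Fin (m + 1) → Fin 2) 1 (m + 1) = b + 1 ∧
      (Fin.snoc w 1 : Fin (m + 1) → Fin 2) (Fin.last m) = 1
      then q ^ bmaj (Fin.snoc w 1 : Fin (m + 1) → Fin 2) else 0) =
      if 2 * b + 1 ≤ m then (if Ballot w ∧ cnt w 1 m = b then q ^ bmaj w else 0) else 0 := by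
    intro w
    rw [bmaj_snoc_one, ← ite_and]
    refine if_congr ?_ rfl rfl
    rw [ballot_snoc_one, cnt_snoc, cnt_stable w 1 (m + 1) (by omega), Fin.snoc_last]
    simp
    constructor
    · rintro ⟨⟨h1, h2⟩, h3⟩
      exact ⟨by omega, h1, h3⟩
    · rintro ⟨h1, h2, h3⟩
      exact ⟨⟨h2, by omega⟩, h3⟩
  rw [Finset.sum_congr rfl (fun w _ => h0 w), Finset.sum_congr rfl (fun w _ => h1 w)]
  split_ifs <;> simp

lemma W_succ_succ (q : ℝ) (m b : ℕ) :
    W q (m + 2) b = W q (m + 1) b + (q ^ (m + 1) - 1) * W1 q m b + W1 q (m + 1) b := by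
  classical
  have key : W1 q (m + 1) b =
      ∑ w : Fin (m + 1) → Fin 2, (if Ballot (Fin.snoc w 1 : Fin (m + 2) → Fin 2) ∧
        cnt (Fin.snoc w 1 : Fin (m + 2) → Fin 2) 1 (m + 2) = b
        then q ^ bmaj (Fin.snoc w 1 : Fin (m + 2) → Fin 2) else 0) := by
    unfold W1
    rw [sum_snoc]
    have h0 : ∀ w : Fin (m + 1) → Fin 2, (if Ballot (Fin.snoc w 0 : Fin (m + 2) → Fin 2) ∧
      cnt (Fin.snoc w 0 : Fin (m + 2) → Fin 2) 1 (m + 1 + 1) = b ∧
      (Fin.snoc w 0 : Fin (m + 2) → Fin 2) (Fin.last (m + 1)) = 1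
      then q ^ bmaj (Fin.snoc w 0 : Fin (m + 2) → Fin 2) else 0) = 0 := by
      intro w
      rw [if_neg]
      rintro ⟨_, _, h⟩
      rw [Fin.snoc_last] at h
      exact absurd h (by decide)
    rw [Finset.sum_congr rfl (fun w _ => h0 w)]
    simp [Fin.snoc_last]
  rw [key]
  unfold W W1
  rw [sum_snoc]
  congr 1
  rw [Finset.mul_sum, ← Finset.sum_add_distrib]
  refine Finset.sum_congr rfl (fun w _ => ?_)
  rw [ballot_snoc_zero, cnt_snoc, cnt_stable w 1 (m + 2) (by omega), bmaj_snoc]
  have hw : w (Fin.last m) = 0 ∨ w (Fin.last m) = 1 := Fin.exists_fin_two.mp ⟨_, rfl⟩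
  rcases hw with hw | hw
  · simp [hw]
  · simp only [hw]
    simp
    split_ifs with h
    · rw [pow_add]; ring
    · ring

lemma W_zero (q : ℝ) (m : ℕ) : W q m 0 = 1 := by
  classical
  induction m with
  | zero =>
    unfold W
    have : ∀ w : Fin 0 → Fin 2, (Ballot w ∧ cnt w 1 0 = 0) := by
      intro w
      refine ⟨fun j => ?_, ?_⟩ <;> simp [cnt]
    have h2 : ∀ w : Fin 0 → Fin 2, bmaj w = 0 := by
      intro w
      unfold bmaj maj
      simp
    simp [this, h2]
  | succ m ih =>
    cases m with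
    | zero =>
      unfold W
      rw [sum_snoc]
      have h0 : ∀ w : Fin 0 → Fin 2, (Ballot (Fin.snoc w 0 : Fin 1 → Fin 2) ∧
          cnt (Fin.snoc w 0 : Fin 1 → Fin 2) 1 (0 + 1) = 0) := by
        intro w
        refine ⟨?_, ?_⟩
        · rw [ballot_snoc_zero]
          intro j; simp [cnt]
        · rw [cnt_snoc]; simp [cnt]
      have h1 : ∀ w : Fin 0 → Fin 2, ¬ (Ballot (Fin.snoc w 1 : Fin 1 → Fin 2) ∧
          cnt (Fin.snoc w 1 : Fin 1 → Fin 2) 1 (0 + 1) = 0) := by
        intro w
        rintro ⟨_, h⟩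
        rw [cnt_snoc] at h
        simp at h
      have h2 : ∀ w : Fin 0 → Fin 2, bmaj (Fin.snoc w 0 : Fin 1 → Fin 2) = 0 := by
        intro w
        unfold bmaj
        rw [maj_one_len]
      simp [h0, h1, h2]
    | succ m =>
      rw [W_succ_succ, ih]
      have : ∀ k, W1 q k 0 = 0 := by
        intro k
        unfold W1
        refine Finset.sum_eq_zero (fun w _ => ?_)
        rw [if_neg]
        rintro ⟨_, h, h'⟩
        unfold cnt at h
        rw [Finset.card_eq_zero] at h
        have hm : Fin.last k ∈ Finset.univ.filter (fun i : Fin (k + 1) => i.val < k + 1 ∧ w i = 1) := by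
          simp [h']
        rw [h] at hm
        simp at hm
      rw [this, this]
      ring

lemma W_eq_zero (q : ℝ) (m b : ℕ) (h : m < 2 * b) : W q m b = 0 := by
  classical
  unfold W
  refine Finset.sum_eq_zero (fun w _ => ?_)
  rw [if_neg]
  rintro ⟨h1, h2⟩
  have h3 := h1 m
  have h4 := cnt_add w m le_rfl
  omega

lemma W_eq_Cl (q : ℝ) (hq : ∀ i : ℕ, q ^ (i + 1) - 1 ≠ 0) (m : ℕ) :
    ∀ a b : ℕ, a + b = m → b ≤ a → W q m b = Cl q a b := by
  induction m using Nat.strong_induction_on with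
  | _ m ih =>
    intro a b hab hba
    cases b with
    | zero =>
      rw [W_zero, Cl_zero q hq]
    | succ b =>
      cases a with
      | zero => omega
      | succ a =>
        obtain ⟨m', rfl⟩ : ∃ m', m = m' + 2 := ⟨a + b, by omega⟩
        rw [W_succ_succ, W1_succ, W1_succ]
        rcases Nat.lt_or_ge a (b + 1) with hlt | hge
        · have hab' : a = b := by omega
          subst hab'
          rw [W_eq_zero q (m' + 1) (a + 1) (by omega), if_neg (by omega), if_pos (by omega),
            ih (m' + 1) (by omega) (a + 1) a (by omega) (by omega), Cl_diag q hq]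
          ring
        · rw [if_pos (by omega), if_pos (by omega),
            ih (m' + 1) (by omega) a (b + 1) (by omega) hge,
            ih m' (by omega) a b (by omega) (by omega),
            ih (m' + 1) (by omega) (a + 1) b (by omega) (by omega), Cl_rec q hq]
          have : m' = a + b := by omega
          rw [this]

/-! ### Symmetry of the closed form under `q ↦ 1/q` -/

lemma D_inv (q : ℝ) (hq0 : q ≠ 0) (n : ℕ) :
    D q⁻¹ n * q ^ (n * (n + 1) / 2) = (-1) ^ n * D q n := by
  induction n with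
  | zero => simp [D]
  | succ n ih =>
    rw [D_succ, D_succ]
    have e : (n + 1) * (n + 1 + 1) / 2 = n * (n + 1) / 2 + (n + 1) := by
      have : (n + 1) * (n + 1 + 1) = n * (n + 1) + 2 * (n + 1) := by ring
      rw [this]
      omega
    rw [e, pow_add q (n * (n + 1) / 2) (n + 1)]
    have h : (q⁻¹ ^ (n + 1) - 1) * q ^ (n + 1) = -(q ^ (n + 1) - 1) := by
      rw [sub_mul, ← mul_pow, inv_mul_cancel₀ hq0]
      simp
    calc D q⁻¹ n * (q⁻¹ ^ (n + 1) - 1) * (q ^ (n * (n + 1) / 2) * q ^ (n + 1))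
        = (D q⁻¹ n * q ^ (n * (n + 1) / 2)) * ((q⁻¹ ^ (n + 1) - 1) * q ^ (n + 1)) := by ring
      _ = (-1) ^ (n + 1) * (D q n * (q ^ (n + 1) - 1)) := by rw [ih, h]; ring

lemma Cl_inv (q : ℝ) (hq0 : q ≠ 0) (hq : ∀ i : ℕ, q ^ (i + 1) - 1 ≠ 0) (t : ℕ) :
    q ^ (t * (2 * t - 1)) * Cl q⁻¹ t t = q ^ (t ^ 2) * Cl q t t := by
  have hq' : ∀ i : ℕ, q⁻¹ ^ (i + 1) - 1 ≠ 0 := by
    intro i h
    apply hq i
    rw [inv_pow, sub_eq_zero] at h
    rw [← inv_inv (q ^ (i + 1)), h]; norm_num
  have h1 := D_ne q hq t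
  have h2 := D_ne q hq (t + 1)
  have h1' := D_ne _ hq' t
  have h2' := D_ne _ hq' (t + 1)
  have i1 := D_inv q hq0 (t + t)
  have i2 := D_inv q hq0 t
  have i3 := D_inv q hq0 (t + 1)
  unfold Cl
  have num1 : q⁻¹ ^ (t + 1) - q⁻¹ ^ (t + 1) + q⁻¹ - 1 = q⁻¹ - 1 := by ring
  have num2 : q ^ (t + 1) - q ^ (t + 1) + q - 1 = q - 1 := by ring
  rw [num1, num2]
  have e1 : D q⁻¹ (t + t) = (-1) ^ (t + t) * D q (t + t) / q ^ ((t + t) * (t + t + 1) / 2) := by
    rw [eq_div_iff (pow_ne_zero _ hq0)]; exact i1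
  have e2 : D q⁻¹ t = (-1) ^ t * D q t / q ^ (t * (t + 1) / 2) := by
    rw [eq_div_iff (pow_ne_zero _ hq0)]; exact i2
  have e3 : D q⁻¹ (t + 1) = (-1) ^ (t + 1) * D q (t + 1) / q ^ ((t + 1) * (t + 1 + 1) / 2) := by
    rw [eq_div_iff (pow_ne_zero _ hq0)]; exact i3
  rw [e1, e2, e3]
  have hsgn : ((-1 : ℝ)) ^ (t + t) = 1 := by
    rw [← two_mul]; simp
  have hsgn2 : ((-1 : ℝ)) ^ t * (-1) ^ (t + 1) = -1 := by
    rw [← pow_add]
    have : t + (t + 1) = 2 * t + 1 := by ring
    rw [this, pow_succ]; simp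
  have ht : t * (t + 1) / 2 + (t + 1) * (t + 1 + 1) / 2 = (t + 1) ^ 2 := by
    have : (t + 1) * (t + 1 + 1) = t * (t + 1) + 2 * (t + 1) := by ring
    rw [this]
    have h2 : 2 ∣ t * (t + 1) := (Nat.even_mul_succ_self t).two_dvd
    obtain ⟨c, hc⟩ := h2
    have hc2 : t * t + t = 2 * c := by rw [← hc]; ring
    have : (t + 1) ^ 2 = t * t + 2 * t + 1 := by ring
    rw [hc, this]
    omega
  have ht2 : (t + t) * (t + t + 1) / 2 = t * (2 * t + 1) := by
    have : (t + t) * (t + t + 1) = 2 * (t * (2 * t + 1)) := by ring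
    rw [this]; omega
  rw [hsgn, ht2]
  have expo : t * (2 * t - 1) + (t + 1) ^ 2 = t ^ 2 + t * (2 * t + 1) + 1 := by
    rcases Nat.eq_zero_or_pos t with h0 | hpos
    · subst h0; norm_num
    · obtain ⟨s, rfl⟩ : ∃ s, t = s + 1 := ⟨t - 1, by omega⟩
      have : 2 * (s + 1) - 1 = 2 * s + 1 := by omega
      rw [this]; ring
  have hexp : q ^ (t * (2 * t - 1)) * (q ^ (t * (t + 1) / 2) * q ^ ((t + 1) * (t + 1 + 1) / 2)) =
      q ^ (t ^ 2) * q ^ (t * (2 * t + 1)) * q := by
    rw [← pow_add, ht, ← pow_add, expo, pow_add, pow_add, pow_one]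
  have hp1 := pow_ne_zero (t * (t + 1) / 2) hq0
  have hp2 := pow_ne_zero ((t + 1) * (t + 1 + 1) / 2) hq0
  have hp3 := pow_ne_zero (t * (2 * t + 1)) hq0
  have hden : (-1) ^ t * D q t / q ^ (t * (t + 1) / 2) *
      ((-1) ^ (t + 1) * D q (t + 1) / q ^ ((t + 1) * (t + 1 + 1) / 2)) =
      -(D q t * D q (t + 1)) / (q ^ (t * (t + 1) / 2) * q ^ ((t + 1) * (t + 1 + 1) / 2)) := by
    rw [div_mul_div_comm]
    congr 1
    calc (-1) ^ t * D q t * ((-1) ^ (t + 1) * D q (t + 1))
        = ((-1) ^ t * (-1) ^ (t + 1)) * (D q t * D q (t + 1)) := by ring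
      _ = _ := by rw [hsgn2]; ring
  rw [hden]
  have hX : q⁻¹ - 1 = -(q - 1) / q := by field_simp; ring
  rw [hX]
  calc q ^ (t * (2 * t - 1)) * (1 * D q (t + t) / q ^ (t * (2 * t + 1)) * (-(q - 1) / q) /
        (-(D q t * D q (t + 1)) /
          (q ^ (t * (t + 1) / 2) * q ^ ((t + 1) * (t + 1 + 1) / 2))))
      = (q ^ (t * (2 * t - 1)) * (q ^ (t * (t + 1) / 2) * q ^ ((t + 1) * (t + 1 + 1) / 2))) *
        (D q (t + t) * (q - 1)) / (q ^ (t * (2 * t + 1)) * q * (D q t * D q (t + 1))) := by
        field_simp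
    _ = q ^ (t ^ 2) * (D q (t + t) * (q - 1) / (D q t * D q (t + 1))) := by
        rw [hexp]; field_simp

/-! ### Linear extensions and Catalan words -/

/-- The binary word of a permutation of `{1,…,2t}`: `1` marks the values `≤ t`. -/
def toWord (t : ℕ) (π : Equiv.Perm (Fin (2 * t))) (a : Fin (2 * t)) : Fin 2 :=
  if (π a).val < t then 1 else 0

lemma prec_same {t x y : ℕ} (hx : 1 ≤ x) (hy : y ≤ 2 * t) (hxy : x < y)
    (h : y ≤ t ∨ t < x) : NEPrec t y x := by
  rcases h with h | h
  · exact ⟨1, y, 1, x, by omega, by omega, by omega, by omega, by simp, by simp,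
      le_rfl, by omega, by omega⟩
  · refine ⟨2, y - t, 2, x - t, by omega, by omega, by omega, by omega, ?_, ?_,
      le_rfl, by omega, by omega⟩
    · simp; omega
    · simp; omega

lemma decr {t : ℕ} {π : Equiv.Perm (Fin (2 * t))} (hπ : IsLinearExtension t π)
    {a b : Fin (2 * t)} (hab : a < b) (hw : toWord t π a = toWord t π b) : π b < π a := by
  by_contra hcon
  have hne : π a ≠ π b := fun h => (ne_of_lt hab) (π.injective h)
  have hlt : π a < π b := lt_of_le_of_ne (not_lt.mp hcon) hne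
  have hlt' : (π a).val < (π b).val := hlt
  have hb := (π b).isLt
  have : NEPrec t (word π b) (word π a) := by
    unfold word
    refine prec_same (by omega) (by omega) (by omega) ?_
    unfold toWord at hw
    by_cases h1 : (π a).val < t
    · by_cases h2 : (π b).val < t
      · left; omega
      · rw [if_pos h1, if_neg h2] at hw
        exact absurd hw (by decide)
    · right; omega
  have := hπ b a this
  exact absurd hab (not_lt.mpr this.le)

lemma lt_iff {t : ℕ} {π : Equiv.Perm (Fin (2 * t))} (hπ : IsLinearExtension t π)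
    {a b : Fin (2 * t)} (hw : toWord t π a = toWord t π b) : b < a ↔ π a < π b := by
  constructor
  · intro h
    exact decr hπ h hw.symm
  · intro h
    rcases lt_trichotomy b a with h1 | h1 | h1
    · exact h1
    · rw [h1] at h; exact absurd h (lt_irrefl _)
    · exact absurd (decr hπ h1 hw) (not_lt.mpr h.le)

lemma cnt_toWord {t : ℕ} {π : Equiv.Perm (Fin (2 * t))} (hπ : IsLinearExtension t π)
    (a : Fin (2 * t)) :
    cnt (toWord t π) (toWord t π a) a.val =
      (Finset.univ.filter (fun c : Fin (2 * t) => π a < c ∧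
        (if c.val < t then (1 : Fin 2) else 0) = toWord t π a)).card := by
  unfold cnt
  refine Finset.card_bij (fun b _ => π b) ?_ ?_ ?_
  · intro b hb
    simp only [Finset.mem_filter, Finset.mem_univ, true_and] at hb ⊢
    exact ⟨(lt_iff hπ hb.2.symm).mp hb.1, hb.2⟩
  · intro b _ c _ h
    exact π.injective h
  · intro c hc
    simp only [Finset.mem_filter, Finset.mem_univ, true_and] at hc
    refine ⟨π.symm c, ?_, by simp⟩
    simp only [Finset.mem_filter, Finset.mem_univ, true_and]
    have h2 : toWord t π (π.symm c) = toWord t π a := by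
      rw [← hc.2]; unfold toWord; simp
    refine ⟨?_, h2⟩
    have := (lt_iff hπ h2.symm).mpr (by simpa using hc.1)
    exact this

lemma val_of_zero {t : ℕ} {π : Equiv.Perm (Fin (2 * t))} (hπ : IsLinearExtension t π)
    (a : Fin (2 * t)) (ha : toWord t π a = 0) :
    (π a).val + cnt (toWord t π) 0 a.val + 1 = 2 * t := by
  have h := cnt_toWord hπ a
  rw [ha] at h
  have hge : t ≤ (π a).val := by
    unfold toWord at ha
    by_contra hcon
    rw [if_pos (by omega)] at ha
    exact absurd ha (by decide)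
  have : (Finset.univ.filter (fun c : Fin (2 * t) => π a < c ∧
        (if c.val < t then (1 : Fin 2) else 0) = 0)) = Finset.Ioi (π a) := by
    ext c
    simp only [Finset.mem_filter, Finset.mem_univ, true_and, Finset.mem_Ioi]
    constructor
    · rintro ⟨h, _⟩; exact h
    · intro h
      have : (π a).val < c.val := h
      exact ⟨h, by rw [if_neg (by omega)]⟩
  rw [this, Fin.card_Ioi] at h
  have := (π a).isLt
  omega

lemma val_of_one {t : ℕ} {π : Equiv.Perm (Fin (2 * t))} (hπ : IsLinearExtension t π)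
    (a : Fin (2 * t)) (ha : toWord t π a = 1) :
    (π a).val + cnt (toWord t π) 1 a.val + 1 = t := by
  have h := cnt_toWord hπ a
  rw [ha] at h
  have hlt : (π a).val < t := by
    unfold toWord at ha
    by_contra hcon
    rw [if_neg hcon] at ha
    exact absurd ha (by decide)
  have ht : t < 2 * t := by omega
  have : (Finset.univ.filter (fun c : Fin (2 * t) => π a < c ∧
        (if c.val < t then (1 : Fin 2) else 0) = 1)) = Finset.Ioo (π a) ⟨t, ht⟩ := by
    ext c
    simp only [Finset.mem_filter, Finset.mem_univ, true_and, Finset.mem_Ioo]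
    constructor
    · rintro ⟨h, h'⟩
      refine ⟨h, ?_⟩
      by_contra hcon
      rw [if_neg] at h'
      · exact absurd h' (by decide)
      · intro h3
        exact hcon h3
    · rintro ⟨h, h'⟩
      exact ⟨h, by rw [if_pos (show c.val < t from h')]⟩
  rw [this, Fin.card_Ioo] at h
  simp only at h
  omega

lemma card_toWord {t : ℕ} (π : Equiv.Perm (Fin (2 * t))) (x : Fin 2) :
    (Finset.univ.filter (fun a => toWord t π a = x)).card = t := by
  have h1 : (Finset.univ.filter (fun a => toWord t π a = x)).card =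
      (Finset.univ.filter (fun c : Fin (2 * t) =>
        (if c.val < t then (1 : Fin 2) else 0) = x)).card := by
    refine Finset.card_bij (fun b _ => π b) ?_ ?_ ?_
    · intro b hb
      simp only [Finset.mem_filter, Finset.mem_univ, true_and] at hb ⊢
      exact hb
    · intro b _ c _ h
      exact π.injective h
    · intro c hc
      simp only [Finset.mem_filter, Finset.mem_univ, true_and] at hc
      refine ⟨π.symm c, ?_, by simp⟩
      simp only [Finset.mem_filter, Finset.mem_univ, true_and]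
      unfold toWord; simpa using hc
  rw [h1]
  have h2 : (Finset.univ.filter (fun c : Fin (2 * t) => c.val < t)).card = t := by
    rw [Fin.card_filter_val_lt]; omega
  rcases Fin.exists_fin_two.mp ⟨x, rfl⟩ with hx | hx
  · subst hx
    have h3 : Finset.univ.filter (fun c : Fin (2 * t) =>
        (if c.val < t then (1 : Fin 2) else 0) = 0) =
        Finset.univ.filter (fun c : Fin (2 * t) => ¬ c.val < t) := by
      ext c
      simp
    rw [h3]
    have h4 := Finset.card_filter_add_card_filter_not (s := (Finset.univ : Finset (Fin (2 * t))))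
      (fun c => c.val < t)
    rw [h2, Finset.card_univ, Fintype.card_fin] at h4
    omega
  · subst hx
    have h3 : Finset.univ.filter (fun c : Fin (2 * t) =>
        (if c.val < t then (1 : Fin 2) else 0) = 1) =
        Finset.univ.filter (fun c : Fin (2 * t) => c.val < t) := by
      ext c
      simp
    rw [h3, h2]

lemma toWord_catalan {t : ℕ} {π : Equiv.Perm (Fin (2 * t))} (hπ : IsLinearExtension t π) :
    IsCatalanWord t (toWord t π) := by
  refine ⟨card_toWord π 0, card_toWord π 1, fun m => ?_⟩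
  classical
  -- the partner of a position `a` carrying the value `k ≤ t` is the position of `t + k`
  have hpart : ∀ a : Fin (2 * t), (π a).val < t → (π a).val + t < 2 * t := fun a h => by omega
  refine Finset.card_le_card_of_injOn
    (fun a => if h : (π a).val < t then π.symm ⟨(π a).val + t, hpart a h⟩ else a) ?_ ?_
  · intro a ha
    simp only [Finset.coe_filter, Finset.mem_univ, true_and, Set.mem_ofPred_eq] at ha ⊢
    obtain ⟨ham, ha1⟩ := ha
    have hlt : (π a).val < t := by
      unfold toWord at ha1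
      by_contra hcon
      rw [if_neg hcon] at ha1
      exact absurd ha1 (by decide)
    rw [dif_pos hlt]
    have hpr : NEPrec t (word π (π.symm ⟨(π a).val + t, hpart a hlt⟩)) (word π a) := by
      unfold word
      simp only [Equiv.apply_symm_apply]
      refine ⟨2, (π a).val + 1, 1, (π a).val + 1, by omega, by omega, by omega, by omega,
        ?_, ?_, by omega, le_rfl, by omega⟩
      · simp; omega
      · simp
    have hlt2 := hπ _ _ hpr
    have hlt3 : (π.symm ⟨(π a).val + t, hpart a hlt⟩).val < a.val := hlt2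
    refine ⟨by omega, ?_⟩
    unfold toWord
    simp
  · intro a ha b hb hab
    simp only [Finset.coe_filter, Finset.mem_univ, true_and, Set.mem_ofPred_eq] at ha hb
    have hlta : (π a).val < t := by
      have ha1 := ha.2
      unfold toWord at ha1
      by_contra hcon
      rw [if_neg hcon] at ha1
      exact absurd ha1 (by decide)
    have hltb : (π b).val < t := by
      have ha1 := hb.2
      unfold toWord at ha1
      by_contra hcon
      rw [if_neg hcon] at ha1
      exact absurd ha1 (by decide)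
    simp only [hlta, hltb, dif_pos] at hab
    have h1 := π.symm.injective hab
    rw [Fin.mk.injEq] at h1
    exact π.injective (Fin.ext (by omega))

lemma toWord_inj {t : ℕ} {π ρ : Equiv.Perm (Fin (2 * t))} (hπ : IsLinearExtension t π)
    (hρ : IsLinearExtension t ρ) (h : toWord t π = toWord t ρ) : π = ρ := by
  ext a
  rcases Fin.exists_fin_two.mp ⟨toWord t π a, rfl⟩ with hx | hx
  · have h1 := val_of_zero hπ a hx
    have h2 := val_of_zero hρ a (by rw [← h]; exact hx)
    rw [h] at h1
    omega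
  · have h1 := val_of_one hπ a hx
    have h2 := val_of_one hρ a (by rw [← h]; exact hx)
    rw [h] at h1
    omega

/-! ### From Catalan words back to linear extensions -/

lemma cnt_lt_total {m : ℕ} (w : Fin m → Fin 2) (x : Fin 2) (a : Fin m) (ha : w a = x) :
    cnt w x a.val + 1 ≤ (Finset.univ.filter (fun i => w i = x)).card := by
  unfold cnt
  have hsub : insert a (Finset.univ.filter (fun i : Fin m => i.val < a.val ∧ w i = x)) ⊆
      Finset.univ.filter (fun i => w i = x) := by
    intro i hi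
    rw [Finset.mem_insert] at hi
    simp only [Finset.mem_filter, Finset.mem_univ, true_and] at hi ⊢
    rcases hi with rfl | hi
    · exact ha
    · exact hi.2
  have hnot : a ∉ (Finset.univ.filter (fun i : Fin m => i.val < a.val ∧ w i = x)) := by
    simp
  calc _ = (insert a (Finset.univ.filter
        (fun i : Fin m => i.val < a.val ∧ w i = x))).card := by
        rw [Finset.card_insert_of_notMem hnot]
    _ ≤ _ := Finset.card_le_card hsub

lemma cnt_mono_strict {m : ℕ} (w : Fin m → Fin 2) (x : Fin 2) (a b : Fin m) (ha : w a = x)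
    (hab : a < b) : cnt w x a.val < cnt w x b.val := by
  unfold cnt
  have hab' : a.val < b.val := hab
  refine Finset.card_lt_card ?_
  rw [Finset.ssubset_iff_of_subset]
  · refine ⟨a, ?_, ?_⟩
    · simp only [Finset.mem_filter, Finset.mem_univ, true_and]
      exact ⟨hab', ha⟩
    · simp
  · intro i hi
    simp only [Finset.mem_filter, Finset.mem_univ, true_and] at hi ⊢
    exact ⟨by omega, hi.2⟩

lemma cnt_succ {m : ℕ} (w : Fin m → Fin 2) (x : Fin 2) (a : Fin m) (ha : w a = x) :
    cnt w x (a.val + 1) = cnt w x a.val + 1 := by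
  unfold cnt
  have hnot : a ∉ (Finset.univ.filter (fun i : Fin m => i.val < a.val ∧ w i = x)) := by
    simp
  rw [← Finset.card_insert_of_notMem hnot]
  congr 1
  ext i
  simp only [Finset.mem_filter, Finset.mem_univ, true_and, Finset.mem_insert]
  constructor
  · rintro ⟨h, h'⟩
    rcases Nat.lt_or_ge i.val a.val with h2 | h2
    · right; exact ⟨h2, h'⟩
    · left; exact Fin.ext (by omega)
  · rintro (rfl | ⟨h, h'⟩)
    · exact ⟨by omega, ha⟩
    · exact ⟨by omega, h'⟩

lemma cnt_mono {m : ℕ} (w : Fin m → Fin 2) (x : Fin 2) {j k : ℕ} (h : j ≤ k) :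
    cnt w x j ≤ cnt w x k := by
  unfold cnt
  refine Finset.card_le_card ?_
  intro i hi
  simp only [Finset.mem_filter, Finset.mem_univ, true_and] at hi ⊢
  exact ⟨by omega, hi.2⟩

/-- The value attached to position `a` by a Catalan word. -/
def valOf (t : ℕ) (w : Fin (2 * t) → Fin 2) (a : Fin (2 * t)) : ℕ :=
  if w a = 0 then 2 * t - 1 - cnt w 0 a.val else t - 1 - cnt w 1 a.val

lemma valOf_zero {t : ℕ} {w : Fin (2 * t) → Fin 2} (hw : IsCatalanWord t w)
    {a : Fin (2 * t)} (ha : w a = 0) :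
    valOf t w a + cnt w 0 a.val + 1 = 2 * t ∧ t ≤ valOf t w a := by
  have h := cnt_lt_total w 0 a ha
  rw [hw.1] at h
  unfold valOf
  rw [if_pos ha]
  omega

lemma valOf_one {t : ℕ} {w : Fin (2 * t) → Fin 2} (hw : IsCatalanWord t w)
    {a : Fin (2 * t)} (ha : w a = 1) :
    valOf t w a + cnt w 1 a.val + 1 = t := by
  have h := cnt_lt_total w 1 a ha
  rw [hw.2.1] at h
  unfold valOf
  rw [if_neg (by rw [ha]; decide)]
  omega

lemma exists_perm {t : ℕ} {w : Fin (2 * t) → Fin 2} (hw : IsCatalanWord t w) :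
    ∃ π : Equiv.Perm (Fin (2 * t)), IsLinearExtension t π ∧ Avoids123 π ∧ toWord t π = w := by
  have hlt : ∀ a, valOf t w a < 2 * t := by
    intro a
    have := a.isLt
    rcases Fin.exists_fin_two.mp ⟨w a, rfl⟩ with hx | hx
    · have := valOf_zero hw hx; omega
    · have := valOf_one hw hx; omega
  let v : Fin (2 * t) → Fin (2 * t) := fun a => ⟨valOf t w a, hlt a⟩
  -- `v` decreases along positions with the same letter
  have hdec : ∀ a b : Fin (2 * t), w a = w b → a < b → valOf t w b < valOf t w a := by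
    intro a b hab hlt'
    rcases Fin.exists_fin_two.mp ⟨w a, rfl⟩ with hx | hx
    · have h1 := valOf_zero hw hx
      have h2 := valOf_zero hw (a := b) (by rw [← hab]; exact hx)
      have h3 := cnt_mono_strict w 0 a b hx hlt'
      omega
    · have h1 := valOf_one hw hx
      have h2 := valOf_one hw (a := b) (by rw [← hab]; exact hx)
      have h3 := cnt_mono_strict w 1 a b hx hlt'
      omega
  have hcls : ∀ a, (w a = 1 ↔ valOf t w a < t) := by
    intro a
    rcases Fin.exists_fin_two.mp ⟨w a, rfl⟩ with hx | hx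
    · have := valOf_zero hw hx
      constructor
      · intro h; rw [h] at hx; exact absurd hx (by decide)
      · intro h; omega
    · have := valOf_one hw hx
      constructor
      · intro _; omega
      · intro _; exact hx
  have hinj : Function.Injective v := by
    intro a b hab
    have hab' : valOf t w a = valOf t w b := by
      have := congrArg Fin.val hab
      exact this
    have hwab : w a = w b := by
      have h1 := hcls a
      have h2 := hcls b
      rw [hab'] at h1
      rcases Fin.exists_fin_two.mp ⟨w a, rfl⟩ with hx | hx <;>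
      rcases Fin.exists_fin_two.mp ⟨w b, rfl⟩ with hy | hy
      · rw [hx, hy]
      · exfalso
        have := h1.mpr (h2.mp hy)
        rw [hx] at this; exact absurd this (by decide)
      · exfalso
        have := h2.mpr (h1.mp hx)
        rw [hy] at this; exact absurd this (by decide)
      · rw [hx, hy]
    rcases lt_trichotomy a b with h | h | h
    · have := hdec a b hwab h; omega
    · exact h
    · have := hdec b a hwab.symm h; omega
  let π : Equiv.Perm (Fin (2 * t)) := Equiv.ofBijective v (Finite.injective_iff_bijective.mp hinj)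
  have hπ : ∀ a, (π a).val = valOf t w a := fun a => rfl
  have hword : toWord t π = w := by
    funext a
    unfold toWord
    rw [hπ]
    rcases Fin.exists_fin_two.mp ⟨w a, rfl⟩ with hx | hx
    · rw [if_neg, hx]
      rw [← hcls a, hx]; decide
    · rw [if_pos, hx]
      rw [← hcls a, hx]
  refine ⟨π, ?_, ?_, hword⟩
  · -- linear extension
    rintro a b ⟨i, k, i', k', ⟨hi1, hi2⟩, ⟨hk1, hk2⟩, ⟨hi1', hi2'⟩, ⟨hk1', hk2'⟩, hx, hy, hii, hkk,
      hne⟩
    unfold word at hx hy hne
    rw [hπ] at hx hne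
    rw [hπ] at hy hne
    have hab : a ≠ b := by
      rintro rfl
      exact hne rfl
    by_contra hcon
    have hba : b < a := lt_of_le_of_ne (not_lt.mp hcon) (Ne.symm hab)
    have hi : i = 1 ∨ i = 2 := by omega
    have hi' : i' = 1 ∨ i' = 2 := by omega
    rcases hi with rfl | rfl <;> rcases hi' with rfl | rfl
    · -- both small
      simp at hx hy
      have wa : w a = 1 := (hcls a).mpr (by omega)
      have wb : w b = 1 := (hcls b).mpr (by omega)
      have := hdec b a (by rw [wa, wb]) hba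
      omega
    · omega
    · -- a large, b small
      simp at hx hy
      have wa : w a = 0 := by
        rcases Fin.exists_fin_two.mp ⟨w a, rfl⟩ with h | h
        · exact h
        · have := (hcls a).mp h; omega
      have wb : w b = 1 := (hcls b).mpr (by omega)
      have h1 := valOf_zero hw wa
      have h2 := valOf_one hw wb
      have h3 := hw.2.2 (b.val + 1)
      change cnt w 1 (b.val + 1) ≤ cnt w 0 (b.val + 1) at h3
      rw [cnt_succ w 1 b wb] at h3
      have hba' : b.val < a.val := hba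
      have h4 := cnt_mono w 0 (show b.val + 1 ≤ a.val by omega)
      omega
    · -- both large
      simp at hx hy
      have wa : w a = 0 := by
        rcases Fin.exists_fin_two.mp ⟨w a, rfl⟩ with h | h
        · exact h
        · have := (hcls a).mp h; omega
      have wb : w b = 0 := by
        rcases Fin.exists_fin_two.mp ⟨w b, rfl⟩ with h | h
        · exact h
        · have := (hcls b).mp h; omega
      have := hdec b a (by rw [wa, wb]) hba
      omega
  · -- 123-avoidance
    rintro ⟨a, b, c, hab, hbc, h1, h2⟩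
    unfold word at h1 h2
    rw [hπ, hπ] at h1 h2
    have hac : a < c := lt_trans hab hbc
    rcases Fin.exists_fin_two.mp ⟨w a, rfl⟩ with ha | ha <;>
    rcases Fin.exists_fin_two.mp ⟨w b, rfl⟩ with hb | hb <;>
    rcases Fin.exists_fin_two.mp ⟨w c, rfl⟩ with hc | hc
    · have := hdec a b (by rw [ha, hb]) hab; omega
    · have := hdec a b (by rw [ha, hb]) hab; omega
    · have := hdec a c (by rw [ha, hc]) hac; omega
    · have := hdec b c (by rw [hb, hc]) hbc; omega
    · have := hdec b c (by rw [hb, hc]) hbc; omega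
    · have := hdec a c (by rw [ha, hc]) hac; omega
    · have := hdec a b (by rw [ha, hb]) hab; omega
    · have := hdec a b (by rw [ha, hb]) hab; omega

/-! ### Descents -/

lemma sum_pos (n : ℕ) : ∑ i : Fin n, (if i.val + 1 < n then i.val + 1 else 0) = n * (n - 1) / 2 := by
  rw [Fin.sum_univ_eq_sum_range (fun i => if i + 1 < n then i + 1 else 0) n]
  cases n with
  | zero => simp
  | succ k =>
    rw [Finset.sum_range_succ]
    rw [if_neg (by omega), add_zero]
    have : ∑ i ∈ Finset.range k, (if i + 1 < k + 1 then i + 1 else 0) =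
        ∑ i ∈ Finset.range k, (i + 1) := by
      refine Finset.sum_congr rfl (fun i hi => ?_)
      rw [Finset.mem_range] at hi
      rw [if_pos (by omega)]
    rw [this]
    have h2 := Finset.sum_range_succ' (fun i => i) k
    have h3 := Finset.sum_range_id_mul_two (k + 1)
    simp only [Nat.add_sub_cancel] at h3 ⊢
    omega

lemma maj_add {t : ℕ} {π : Equiv.Perm (Fin (2 * t))} (hπ : IsLinearExtension t π) :
    maj (word π) + bmaj (toWord t π) = t * (2 * t - 1) := by
  classical
  have hgoal : 2 * t * (2 * t - 1) / 2 = t * (2 * t - 1) := by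
    rw [mul_assoc]; omega
  rw [← hgoal, ← sum_pos (2 * t)]
  unfold bmaj maj
  rw [Finset.sum_filter, Finset.sum_filter, ← Finset.sum_add_distrib]
  refine Finset.sum_congr rfl (fun i _ => ?_)
  by_cases hi : i.val + 1 < 2 * t
  · rw [if_pos hi]
    have hlt : i < ⟨i.val + 1, hi⟩ := by
      show i.val < i.val + 1
      omega
    have key : (word π ⟨i.val + 1, hi⟩ < word π i) ↔
        ¬ ((toWord t π ⟨i.val + 1, hi⟩).val < (toWord t π i).val) := by
      unfold word
      rcases Fin.exists_fin_two.mp ⟨toWord t π i, rfl⟩ with ha | ha <;>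
      rcases Fin.exists_fin_two.mp ⟨toWord t π ⟨i.val + 1, hi⟩, rfl⟩ with hb | hb
      · have := decr hπ hlt (by rw [ha, hb])
        have h' : (π ⟨i.val + 1, hi⟩).val < (π i).val := this
        rw [ha, hb]; simp; omega
      · have h1 : ¬ (π i).val < t := by
          intro h; unfold toWord at ha; rw [if_pos h] at ha; exact absurd ha (by decide)
        have h2 : (π ⟨i.val + 1, hi⟩).val < t := by
          by_contra h; unfold toWord at hb; rw [if_neg h] at hb; exact absurd hb (by decide)
        rw [ha, hb]; simp; omega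
      · have h1 : (π i).val < t := by
          by_contra h; unfold toWord at ha; rw [if_neg h] at ha; exact absurd ha (by decide)
        have h2 : ¬ (π ⟨i.val + 1, hi⟩).val < t := by
          intro h; unfold toWord at hb; rw [if_pos h] at hb; exact absurd hb (by decide)
        rw [ha, hb]; simp; omega
      · have := decr hπ hlt (by rw [ha, hb])
        have h' : (π ⟨i.val + 1, hi⟩).val < (π i).val := this
        rw [ha, hb]; simp; omega
    by_cases hk : word π ⟨i.val + 1, hi⟩ < word π i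
    · rw [if_pos ⟨hi, hk⟩, if_neg (by rintro ⟨_, h⟩; exact key.mp hk h), add_zero]
    · rw [if_neg (by rintro ⟨_, h⟩; exact hk h),
        if_pos ⟨hi, by by_contra h; exact hk (key.mpr h)⟩, zero_add]
  · rw [if_neg hi, if_neg (by rintro ⟨h, _⟩; exact hi h),
      if_neg (by rintro ⟨h, _⟩; exact hi h), add_zero]

lemma avoids {t : ℕ} {π : Equiv.Perm (Fin (2 * t))} (hπ : IsLinearExtension t π) :
    Avoids123 π := by
  obtain ⟨ρ, h1, h2, h3⟩ := exists_perm (toWord_catalan hπ)
  rwa [toWord_inj hπ h1 h3.symm]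

/-! ### Evaluation -/

lemma catalan_iff {t : ℕ} (w : Fin (2 * t) → Fin 2) :
    IsCatalanWord t w ↔ (Ballot w ∧ cnt w 1 (2 * t) = t) := by
  have hfull : ∀ x, cnt w x (2 * t) = (Finset.univ.filter (fun i => w i = x)).card := by
    intro x
    unfold cnt
    congr 1
    ext i
    simp
  have hadd := cnt_add w (2 * t) le_rfl
  constructor
  · rintro ⟨_, h1, h2⟩
    exact ⟨h2, by rw [hfull, h1]⟩
  · rintro ⟨h1, h2⟩
    refine ⟨?_, ?_, h1⟩
    · rw [← hfull]; omega
    · rw [← hfull]; exact h2

lemma eval_cat (q : ℝ) (t : ℕ) : aeval q (catPoly t) = W q (2 * t) t := by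
  classical
  unfold catPoly W
  rw [map_sum, Finset.sum_filter]
  refine Finset.sum_congr rfl (fun w _ => ?_)
  rw [map_pow, aeval_X]
  exact if_congr (catalan_iff w) rfl rfl

lemma eval_NE (q : ℝ) (hq0 : q ≠ 0) (t : ℕ) :
    aeval q (NEpoly t) = q ^ (t * (2 * t - 1)) * W q⁻¹ (2 * t) t := by
  classical
  have h1 : W q⁻¹ (2 * t) t =
      ∑ w ∈ (Finset.univ : Finset (Fin (2 * t) → Fin 2)).filter (fun w => IsCatalanWord t w),
        q⁻¹ ^ bmaj w := by
    unfold W
    rw [Finset.sum_filter]
    refine Finset.sum_congr rfl (fun w _ => ?_)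
    exact if_congr (catalan_iff w).symm rfl rfl
  rw [h1, Finset.mul_sum]
  unfold NEpoly
  rw [map_sum]
  refine Finset.sum_bij (fun π _ => toWord t π) ?_ ?_ ?_ ?_
  · intro π hπ
    simp only [Finset.mem_filter, Finset.mem_univ, true_and] at hπ ⊢
    exact toWord_catalan hπ.1
  · intro π hπ ρ hρ h
    simp only [Finset.mem_filter, Finset.mem_univ, true_and] at hπ hρ
    exact toWord_inj hπ.1 hρ.1 h
  · intro w hw
    simp only [Finset.mem_filter, Finset.mem_univ, true_and] at hw
    obtain ⟨π, hπ1, hπ2, hπ3⟩ := exists_perm hw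
    exact ⟨π, by simp [hπ1, hπ2], hπ3⟩
  · intro π hπ
    simp only [Finset.mem_filter, Finset.mem_univ, true_and] at hπ
    have h := maj_add hπ.1
    rw [map_pow, aeval_X, ← h, pow_add, mul_assoc, ← mul_pow, mul_inv_cancel₀ hq0, one_pow,
      mul_one]

/-- For every `t ≥ 1`, `NE_{2,t}(123)[q] = q^{t²} c_t(q)`. -/
theorem result : ∀ t : ℕ, 1 ≤ t → NEpoly t = X ^ (t ^ 2) * catPoly t := by
  intro t _
  have hinj : Function.Injective (Polynomial.map (Int.castRingHom ℝ)) :=
    Polynomial.map_injective _ (RingHom.injective_int _)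
  apply hinj
  refine Polynomial.eq_of_infinite_eval_eq _ _ ?_
  refine Set.Infinite.mono (s := Set.Ioi (1 : ℝ)) ?_ (Set.Ioi_infinite 1)
  intro q hq
  have hq1 : (1 : ℝ) < q := hq
  have hq0 : q ≠ 0 := by positivity
  have hne : ∀ i : ℕ, q ^ (i + 1) - 1 ≠ 0 := by
    intro i
    exact ne_of_gt (sub_pos.mpr (one_lt_pow₀ hq1 (Nat.succ_ne_zero i)))
  have hne' : ∀ i : ℕ, q⁻¹ ^ (i + 1) - 1 ≠ 0 := by
    intro i h
    apply hne i
    rw [inv_pow, sub_eq_zero] at h
    rw [← inv_inv (q ^ (i + 1)), h]; norm_num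
  have e1 := eval_NE q hq0 t
  have e2 := eval_cat q t
  rw [W_eq_Cl _ hne' (2 * t) t t (by ring) le_rfl] at e1
  rw [W_eq_Cl _ hne (2 * t) t t (by ring) le_rfl] at e2
  have hfin : aeval q (NEpoly t) = aeval q (X ^ (t ^ 2) * catPoly t) := by
    rw [e1, map_mul, map_pow, aeval_X, e2, Cl_inv q hq0 hne]
  show Polynomial.eval q _ = Polynomial.eval q _
  rw [Polynomial.eval_map, Polynomial.eval_map]
  exact hfin

end Pool.Agent.Results.MP_28c202_co.MajIdentity
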